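import Mathlib
import Pool.Agent.BSI.Stmts

/-!
# Squad BSI, row GRD (helper27): the gradient after the substitution of a stage.
-/

set_option autoImplicit false

namespace Pool.Agent.BSI.H27

open MvPolynomial Pool.Agent.BSI Pool.Agent.BSH

theorem grd_chain {E : Type} [Field E] (φ : MvPolynomial ℕ E →ₐ[E] MvPolynomial ℕ E) (i : ℕ)
    (F : MvPolynomial ℕ E) : ∃ N₀ : ℕ, ∀ N, N₀ ≤ N →
      pderiv i (φ F) = ∑ v ∈ Finset.range N, φ (pderiv v F) * pderiv i (φ (X v)) := by
  induction F using MvPolynomial.induction_on with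
  | C x =>
    refine ⟨0, fun N _ => ?_⟩
    have e : φ (C x) = C x := by
      rw [← MvPolynomial.algebraMap_eq]
      exact φ.commutes x
    rw [e, pderiv_C]
    simp
  | add p q hp hq =>
    obtain ⟨N1, h1⟩ := hp
    obtain ⟨N2, h2⟩ := hq
    refine ⟨max N1 N2, fun N hN => ?_⟩
    rw [map_add, map_add, h1 N ((le_max_left _ _).trans hN), h2 N ((le_max_right _ _).trans hN),
      ← Finset.sum_add_distrib]
    refine Finset.sum_congr rfl fun v _ => ?_
    rw [map_add, map_add, add_mul]
  | mul_X p n hp =>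
    obtain ⟨N1, h1⟩ := hp
    refine ⟨max N1 (n + 1), fun N hN => ?_⟩
    have hn : n < N := lt_of_lt_of_le (Nat.lt_succ_self n) ((le_max_right _ _).trans hN)
    rw [map_mul, pderiv_mul, h1 N ((le_max_left _ _).trans hN)]
    have e : ∀ v ∈ Finset.range N, φ (pderiv v (p * X n)) * pderiv i (φ (X v)) =
        (φ (pderiv v p) * pderiv i (φ (X v))) * φ (X n) +
          (if v = n then φ p * pderiv i (φ (X n)) else 0) := by
      intro v _
      rw [pderiv_mul, map_add, map_mul, map_mul]
      by_cases h : v = n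
      · subst h
        rw [pderiv_X_self, if_pos rfl, map_one]
        ring
      · rw [pderiv_X_of_ne (fun h' => h h'.symm), if_neg h, map_zero]
        ring
    rw [Finset.sum_congr rfl e, Finset.sum_add_distrib, ← Finset.sum_mul,
      Finset.sum_ite_eq' (Finset.range N) n, if_pos (Finset.mem_range.2 hn)]

theorem sum_range_mul_aux {M : Type} [AddCommMonoid M] (f : ℕ → M) (r c : ℕ) :
    ∑ t ∈ Finset.range (r * c), f t = ∑ j ∈ Finset.range c, ∑ l ∈ Finset.range r, f (r * j + l) := by
  induction c with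
  | zero => simp
  | succ c ih =>
    rw [Nat.mul_succ, Finset.sum_range_add, ih, Finset.sum_range_succ]

section values

variable {E : Type} [Field E] (k r b c : ℕ) (a : ℕ → ℕ → E) (e : ℕ → E)

theorem stg_lt (v : ℕ) (hv : v < k) : stg k r b c a e (X v) = X v := by
  unfold stg
  rw [aeval_X, if_pos hv]

theorem stg_mid (j l : ℕ) (hj : j < c) (hl : l < r) :
    stg k r b c a e (X (k + (r * j + l))) =
      ∑ m ∈ Finset.range k, C (a m l) * X m ^ (b ^ (j + 1) + 1) := by
  have hr : 0 < r := lt_of_le_of_lt (Nat.zero_le l) hl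
  have h1 : r * j + l < r * c := by
    calc r * j + l < r * j + r := by omega
      _ = r * (j + 1) := by ring
      _ ≤ r * c := Nat.mul_le_mul_left r hj
  unfold stg
  rw [aeval_X, if_neg (by omega), if_pos (by omega)]
  have e1 : k + (r * j + l) - k = r * j + l := by omega
  have e2 : (r * j + l) % r = l := by
    rw [Nat.mul_add_mod, Nat.mod_eq_of_lt hl]
  have e3 : (r * j + l) / r = j := by
    rw [Nat.mul_add_div hr, Nat.div_eq_of_lt hl, add_zero]
  rw [e1, e2, e3]

theorem stg_top (u : ℕ) (hu : u < r) :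
    stg k r b c a e (X (k + r * c + u)) = X (k + u) := by
  unfold stg
  rw [aeval_X, if_neg (by omega), if_neg (by omega), if_pos (by rw [Nat.mul_succ]; omega)]
  congr 1
  omega

theorem stg_big (u : ℕ) (hu : r ≤ u) :
    stg k r b c a e (X (k + r * c + u)) = C (e (k + r * c + u)) := by
  unfold stg
  rw [aeval_X, if_neg (by omega), if_neg (by omega), if_neg (by rw [Nat.mul_succ]; omega)]

theorem der_mid (i j l : ℕ) (hj : j < c) (hl : l < r) :
    pderiv i (stg k r b c a e (X (k + (r * j + l)))) =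
      if i < k then C (a i l) * (C ((b ^ (j + 1) + 1 : ℕ) : E) * X i ^ b ^ (j + 1)) else 0 := by
  rw [stg_mid k r b c a e j l hj hl, map_sum]
  have h : ∀ m ∈ Finset.range k,
      pderiv i (C (a m l) * X m ^ (b ^ (j + 1) + 1) : MvPolynomial ℕ E) =
        if m = i then C (a i l) * (C ((b ^ (j + 1) + 1 : ℕ) : E) * X i ^ b ^ (j + 1)) else 0 := by
    intro m _
    rw [pderiv_C_mul, pderiv_pow]
    by_cases hm : m = i
    · subst hm
      rw [if_pos rfl, pderiv_X_self, mul_one, Nat.add_sub_cancel]
      simp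
    · rw [if_neg hm, pderiv_X_of_ne hm, mul_zero, mul_zero]
  rw [Finset.sum_congr rfl h, Finset.sum_ite_eq']
  simp only [Finset.mem_range]

theorem der_top (i u : ℕ) (hu : u < r) :
    pderiv i (stg k r b c a e (X (k + r * c + u))) = if i = k + u then 1 else 0 := by
  rw [stg_top k r b c a e u hu]
  by_cases h : i = k + u
  · rw [if_pos h, h, pderiv_X_self]
  · rw [if_neg h, pderiv_X_of_ne (fun h' => h h'.symm)]

theorem der_big (i u : ℕ) (hu : r ≤ u) :
    pderiv i (stg k r b c a e (X (k + r * c + u))) = 0 := by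
  rw [stg_big k r b c a e u hu, pderiv_C]

theorem grad_low (F : MvPolynomial ℕ E) (i : ℕ) (hi : i < k) :
    pderiv i (stg k r b c a e F) = stg k r b c a e (pderiv i F) +
      ∑ j ∈ Finset.range c, C ((b ^ (j + 1) + 1 : ℕ) : E) * (X i ^ b ^ (j + 1) *
        ∑ l ∈ Finset.range r, C (a i l) * stg k r b c a e (pderiv (k + (r * j + l)) F)) := by
  obtain ⟨N₀, hN⟩ := grd_chain (stg k r b c a e) i F
  have h := hN (k + r * c + max N₀ r) ((le_max_left N₀ r).trans (Nat.le_add_left _ _))
  rw [h, Finset.sum_range_add, Finset.sum_range_add, sum_range_mul_aux]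
  have h3 : ∑ u ∈ Finset.range (max N₀ r), stg k r b c a e (pderiv (k + r * c + u) F) *
      pderiv i (stg k r b c a e (X (k + r * c + u))) = 0 := by
    refine Finset.sum_eq_zero fun u _ => ?_
    rcases lt_or_ge u r with hu | hu
    · rw [der_top k r b c a e i u hu, if_neg (by omega), mul_zero]
    · rw [der_big k r b c a e i u hu, mul_zero]
  have h1 : ∑ v ∈ Finset.range k, stg k r b c a e (pderiv v F) *
      pderiv i (stg k r b c a e (X v)) = stg k r b c a e (pderiv i F) := by
    rw [Finset.sum_eq_single i]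
    · rw [stg_lt k r b c a e i hi, pderiv_X_self, mul_one]
    · intro v hv hvi
      rw [stg_lt k r b c a e v (Finset.mem_range.1 hv), pderiv_X_of_ne hvi, mul_zero]
    · intro h'
      exact absurd (Finset.mem_range.2 hi) h'
  rw [h3, h1, add_zero]
  congr 1
  refine Finset.sum_congr rfl fun j hj => ?_
  rw [Finset.mul_sum, Finset.mul_sum]
  refine Finset.sum_congr rfl fun l hl => ?_
  rw [der_mid k r b c a e i j l (Finset.mem_range.1 hj) (Finset.mem_range.1 hl), if_pos hi]
  ring

theorem grad_high (F : MvPolynomial ℕ E) (i : ℕ) (hi : k ≤ i) (hi' : i < k + r) :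
    pderiv i (stg k r b c a e F) = stg k r b c a e (pderiv (k + r * c + (i - k)) F) := by
  obtain ⟨N₀, hN⟩ := grd_chain (stg k r b c a e) i F
  have h := hN (k + r * c + max N₀ r) ((le_max_left N₀ r).trans (Nat.le_add_left _ _))
  rw [h, Finset.sum_range_add, Finset.sum_range_add, sum_range_mul_aux]
  have h1 : ∑ v ∈ Finset.range k, stg k r b c a e (pderiv v F) *
      pderiv i (stg k r b c a e (X v)) = 0 := by
    refine Finset.sum_eq_zero fun v hv => ?_
    have hv' := Finset.mem_range.1 hv
    rw [stg_lt k r b c a e v hv', pderiv_X_of_ne (by omega), mul_zero]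
  have h2 : ∑ j ∈ Finset.range c, ∑ l ∈ Finset.range r,
      stg k r b c a e (pderiv (k + (r * j + l)) F) *
        pderiv i (stg k r b c a e (X (k + (r * j + l)))) = 0 := by
    refine Finset.sum_eq_zero fun j hj => Finset.sum_eq_zero fun l hl => ?_
    rw [der_mid k r b c a e i j l (Finset.mem_range.1 hj) (Finset.mem_range.1 hl),
      if_neg (by omega), mul_zero]
  rw [h1, h2, zero_add, zero_add, Finset.sum_eq_single (i - k)]
  · rw [der_top k r b c a e i (i - k) (by omega), if_pos (by omega), mul_one]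
  · intro u _ hu
    rcases lt_or_ge u r with hu' | hu'
    · rw [der_top k r b c a e i u hu', if_neg (by omega), mul_zero]
    · rw [der_big k r b c a e i u hu', mul_zero]
  · intro h'
    exact absurd (Finset.mem_range.2 (lt_of_lt_of_le (by omega) (le_max_right N₀ r))) h'

end values

theorem sp_mono {E A : Type} [Field E] [CommRing A] [Algebra E A] {B B' : Set A} {l l' : List A}
    (hB : B ⊆ B') (hl : ∀ x ∈ l, x ∈ l') : sp E B l ≤ sp E B' l' := by
  refine Submodule.span_mono ?_
  rintro x ((hx | hx) | hx)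
  · exact Or.inl (Or.inl hx)
  · exact Or.inl (Or.inr (hB hx))
  · exact Or.inr (hl x hx)

theorem base_mem {E A : Type} [Field E] [CommRing A] [Algebra E A] {B : Set A} {l : List A} {x : A}
    (hx : x ∈ B) : x ∈ sp E B l :=
  Submodule.subset_span (Or.inl (Or.inr hx))

theorem list_mem {E A : Type} [Field E] [CommRing A] [Algebra E A] {B : Set A} {l : List A} {x : A}
    (hx : x ∈ l) : x ∈ sp E B l :=
  Submodule.subset_span (Or.inr hx)

theorem C_mem {E : Type} [Field E] {B : Set (MvPolynomial ℕ E)} {l : List (MvPolynomial ℕ E)}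
    (x : E) : (C x : MvPolynomial ℕ E) ∈ sp E B l := by
  have h : (1 : MvPolynomial ℕ E) ∈ sp E B l := Submodule.subset_span (Or.inl (Or.inl rfl))
  have h' := (sp E B l).smul_mem x h
  rwa [← C_mul', mul_one] at h'

theorem C_mul_mem {E : Type} [Field E] {S : Submodule E (MvPolynomial ℕ E)}
    {P : MvPolynomial ℕ E} (x : E) (hP : P ∈ S) : C x * P ∈ S := by
  rw [C_mul']
  exact S.smul_mem x hP

/-- Products appended in front of a computation. -/
theorem ch_prods {E A : Type} [Field E] [CommRing A] [Algebra E A] (B : Set A) (l : List A)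
    (hl : Ch E B l) (P : List A) (hP : ∀ g ∈ P, ∃ x ∈ sp E B l, ∃ y ∈ sp E B l, g = x * y) :
    Ch E B (P ++ l) := by
  induction P with
  | nil => exact hl
  | cons g P ih =>
    refine ⟨ih fun g' hg' => hP g' (List.mem_cons_of_mem _ hg'), ?_⟩
    obtain ⟨x, hx, y, hy, h⟩ := hP g (List.mem_cons_self ..)
    have hle : sp E B l ≤ sp E B (P ++ l) :=
      sp_mono subset_rfl (fun z hz => List.mem_append_right _ hz)
    exact ⟨x, hle hx, y, hle hy, h⟩

theorem grd (hBst : BstStmt) (hMap : MapStmt) : GrdStmt := by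
  intro E _ k r b c s n a e F hr hF
  obtain ⟨l₀, hl₀, hCh, hmem⟩ := hF
  obtain ⟨l', hl', hCh', hD⟩ := hBst E (MvPolynomial ℕ E) (vs E n) l₀ F hCh hmem
  set φ := stg k r b c a e with hφ
  set L : List (MvPolynomial ℕ E) := (List.range (r * c)).map (fun t => φ (X (k + t))) with hL
  set B' : Set (MvPolynomial ℕ E) := vs E (k + r) ∪ pw E k b c ∪ {x | x ∈ L} with hB'
  have hvar : ∀ v, φ (X v) ∈ sp E B' [] := by
    intro v
    rcases lt_or_ge v k with h | h
    · rw [hφ, stg_lt k r b c a e v h]
      exact base_mem (Or.inl (Or.inl ⟨v, by omega, rfl⟩))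
    rcases lt_or_ge v (k + r * c) with h' | h'
    · refine base_mem (Or.inr ?_)
      change φ (X v) ∈ L
      rw [hL, List.mem_map]
      exact ⟨v - k, List.mem_range.2 (by omega), by congr 2; omega⟩
    · obtain ⟨u, rfl⟩ := Nat.exists_eq_add_of_le h'
      rcases lt_or_ge u r with hu | hu
      · rw [hφ, stg_top k r b c a e u hu]
        exact base_mem (Or.inl (Or.inl ⟨k + u, by omega, rfl⟩))
      · rw [hφ, stg_big k r b c a e u hu]
        exact C_mem _
  obtain ⟨hCh2, hmem2⟩ := hMap E (MvPolynomial ℕ E) (MvPolynomial ℕ E) φ (vs E n) B'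
    (l' ++ l₀) [] hCh' trivial (by
      rintro x ⟨i, _, rfl⟩
      exact hvar i)
  rw [List.append_nil] at hCh2
  have hder : ∀ v, φ (pderiv v F) ∈ sp E B' ((l' ++ l₀).map φ) := by
    intro v
    have h1 := hmem2 (pderiv v F) (hD (pderiv v) (by
      rintro x ⟨i, _, rfl⟩
      by_cases h : i = v
      · exact ⟨1, by rw [h, pderiv_X_self, map_one]⟩
      · exact ⟨0, by rw [pderiv_X_of_ne h, map_zero]⟩))
    rwa [List.append_nil] at h1
  set PP : ℕ → ℕ → MvPolynomial ℕ E := fun i j => X i ^ b ^ (j + 1) *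
    ∑ l ∈ Finset.range r, C (a i l) * φ (pderiv (k + (r * j + l)) F) with hPP
  set Pr : List (MvPolynomial ℕ E) := (List.range (k * c)).map (fun q => PP (q / c) (q % c))
    with hPr
  have hPmem : ∀ i < k, ∀ j < c, PP i j ∈ Pr := by
    intro i hi j hj
    rw [hPr, List.mem_map]
    have hc : 0 < c := lt_of_le_of_lt (Nat.zero_le j) hj
    refine ⟨c * i + j, List.mem_range.2 ?_, ?_⟩
    · calc c * i + j < c * i + c := by omega
        _ = c * (i + 1) := by ring
        _ ≤ c * k := Nat.mul_le_mul_left c hi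
        _ = k * c := mul_comm _ _
    · have e2 : (c * i + j) % c = j := by
        rw [Nat.mul_add_mod, Nat.mod_eq_of_lt hj]
      have e3 : (c * i + j) / c = i := by
        rw [Nat.mul_add_div hc, Nat.div_eq_of_lt hj, add_zero]
      simp only [e2, e3]
  refine ⟨L, Pr ++ (l' ++ l₀).map φ, ?_, ?_, ?_, ?_, ?_⟩
  · rw [hL, List.length_map, List.length_range]
  · intro u hu
    rw [hL, List.mem_map] at hu
    obtain ⟨t, ht, rfl⟩ := hu
    have ht' := List.mem_range.1 ht
    have hr' : 0 < r := hr
    have hj : t / r < c := Nat.div_lt_of_lt_mul ht'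
    have hl : t % r < r := Nat.mod_lt _ hr'
    have ht2 : r * (t / r) + t % r = t := Nat.div_add_mod t r
    have e1 : φ (X (k + t)) = ∑ m ∈ Finset.range k, C (a m (t % r)) *
        X m ^ (b ^ (t / r + 1) + 1) := by
      have h := stg_mid k r b c a e (t / r) (t % r) hj hl
      rwa [ht2] at h
    rw [e1]
    refine Submodule.sum_mem _ fun m hm => ?_
    refine C_mul_mem _ ?_
    rw [pow_succ (X m) (b ^ (t / r + 1)), pow_two (sp E (pw E k b c) [])]
    refine Submodule.mul_mem_mul ?_ ?_
    · exact base_mem ⟨m, Finset.mem_range.1 hm, t / r + 1, hj, rfl⟩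
    · exact base_mem ⟨m, Finset.mem_range.1 hm, 0, Nat.zero_le _, by rw [pow_zero, pow_one]⟩
  · rw [List.length_append, hPr, List.length_map, List.length_range, List.length_map,
      List.length_append]
    omega
  · refine ch_prods B' _ hCh2 Pr ?_
    intro g hg
    rw [hPr, List.mem_map] at hg
    obtain ⟨q, hq, rfl⟩ := hg
    have hq' := List.mem_range.1 hq
    have hc : 0 < c := by
      rcases Nat.eq_zero_or_pos c with h0 | h0
      · rw [h0, mul_zero] at hq'
        omega
      · exact h0
    have hi : q / c < k := Nat.div_lt_of_lt_mul (by rwa [mul_comm])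
    have hj : q % c < c := Nat.mod_lt _ hc
    refine ⟨X (q / c) ^ b ^ (q % c + 1), ?_, _, ?_, rfl⟩
    · exact base_mem (Or.inl (Or.inr ⟨q / c, hi, q % c + 1, hj, rfl⟩))
    · exact Submodule.sum_mem _ fun l _ => C_mul_mem _ (hder _)
  · intro i hi
    have hle : sp E B' ((l' ++ l₀).map φ) ≤ sp E B' (Pr ++ (l' ++ l₀).map φ) :=
      sp_mono subset_rfl (fun z hz => List.mem_append_right _ hz)
    rcases lt_or_ge i k with h | h
    · rw [hφ, grad_low k r b c a e F i h]
      refine Submodule.add_mem _ (hle (hder i)) (Submodule.sum_mem _ fun j hj => ?_)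
      exact C_mul_mem _ (list_mem (List.mem_append_left _ (hPmem i h j (Finset.mem_range.1 hj))))
    · rw [hφ, grad_high k r b c a e F i h hi]
      exact hle (hder _)

end Pool.Agent.BSI.H27
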